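import Pool.Agent.N110.QPull
import Pool.Agent.N110.Conv
import Pool.Agent.N110.Sec

/-!
The numerical dimension of `K_X + Δ` is at most the one of `K_X' + Δ'`, if there is a dominant
generically finite rational map `X' ⇢ X` such that the pull back of `K_X + Δ` is at most
`K_X' + Δ'`.
-/

set_option autoImplicit false
set_option linter.overlappingInstances false
set_option linter.unusedSectionVars false

open FF Module MvPolynomial Pool.Agent.W602.GT Pool.Agent.W603.LV
open Pool.Agent.Y172 Pool.Agent.Y191 Pool.Agent.R887 Pool.Agent.W619.PQ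

namespace Pool.Agent.N110.IM

section

variable {K K' : Type} [Field K] [Algebra ℂ K] [Field K'] [Algebra ℂ K'] {N N' n : ℕ}
  {y : Fin (N + 1) → K} {y' : Fin (N' + 1) → K'}

/-- the pull backs of hyperplane sections are dominated by hyperplane sections -/
theorem bnd_img (hy' : NormalModel y') {i' : Fin (N' + 1)} (hi' : y' i' ≠ 0)
    (φ : K →ₐ[ℂ] K') {i : Fin (N + 1)} (hi : y i ≠ 0) : ∃ (B : ℕ) (g : K'), g ≠ 0 ∧
      ∀ f ∈ Submodule.span ℂ (affS y i), Bnd ℂ (affS y' i') B (g * φ f) := by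
  classical
  obtain ⟨β, f0, hf0, hdom⟩ := dom_sections hy' hi' (c := 0) (Δ := 0)
    (Set.finite_empty.subset (by rintro P ⟨-, h⟩; exact h rfl))
    (Set.finite_empty.subset (by rintro P ⟨-, h⟩; exact h rfl))
  have hA : Effective y' fun Q => ∑ l, |(Q.ord (φ (y l / y i)) : ℚ)| := by
    refine ⟨fun Q _ => Finset.sum_nonneg fun _ _ => abs_nonneg _, ?_⟩
    refine (Set.finite_iUnion fun l : {l : Fin (N + 1) // y l ≠ 0} => finite_ord hy'
      (f := φ (y l / y i)) (by
        rw [Ne, map_eq_zero]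
        exact div_ne_zero l.2 hi)).subset ?_
    rintro Q ⟨hQ, h0⟩
    by_contra hcon
    simp only [Set.mem_iUnion, not_exists] at hcon
    apply h0
    refine Finset.sum_eq_zero fun l _ => ?_
    have h1 : Q.ord (φ (y l / y i)) = 0 := by
      by_cases hl : y l = 0
      · rw [hl, zero_div, map_zero]
        exact Q.ord_zero
      by_contra h2
      exact hcon ⟨l, hl⟩ ⟨hQ, h2⟩
    rw [h1]
    simp
  obtain ⟨B, g, hg, hB⟩ := hdom _ hA
  refine ⟨B, g, hg, fun f hf => ?_⟩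
  have h1 : φ f ∈ Lsp y' (0 : Place ℂ K' → ℤ) 0 ((0 : ℕ) • (0 : Place ℂ K' → ℚ) +
      (1 : ℕ) • fun Q => ∑ l, |(Q.ord (φ (y l / y i)) : ℚ)|) := by
    induction hf using Submodule.span_induction with
    | mem x hx =>
      obtain ⟨l, rfl⟩ := hx
      intro Q hQ
      by_cases h0 : φ (y l / y i) = 0
      · exact Or.inl h0
      right
      have h7 : |(Q.ord (φ (y l / y i)) : ℚ)| ≤ ∑ j, |(Q.ord (φ (y j / y i)) : ℚ)| :=
        Finset.single_le_sum (f := fun j => |(Q.ord (φ (y j / y i)) : ℚ)|)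
          (fun _ _ => abs_nonneg _) (Finset.mem_univ l)
      have h8 := neg_abs_le (Q.ord (φ (y l / y i)) : ℚ)
      simp only [Pi.add_apply, Pi.zero_apply, nsmul_eq_mul, Nat.cast_zero,
        Nat.cast_one, zero_mul, one_mul, zero_add, Int.cast_zero]
      linarith
    | zero =>
      rw [map_zero]
      exact Submodule.zero_mem _
    | add a b _ _ ha hb =>
      rw [map_add]
      exact Submodule.add_mem _ ha hb
    | smul c a _ ha =>
      rw [map_smul]
      exact Submodule.smul_mem _ c ha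
  have h2 := hB 0 1 _ h1
  rw [pow_zero, one_mul, pow_one, zero_mul, one_mul, zero_add] at h2
  exact h2

/-- pencils of hyperplane sections of the image are replaced by pencils of hyperplane sections -/
theorem replace_img (hy' : NormalModel y') (hn' : Algebra.trdeg ℂ K' = n) {i' : Fin (N' + 1)}
    (hi' : y' i' ≠ 0) (φ : K →ₐ[ℂ] K') {i : Fin (N + 1)} (hi : y i ≠ 0) :
    ∃ B : ℕ, ∀ (Q : Multiset K) (W : Multiset K'), (Q.map φ + W).card = n →
      (∀ u ∈ Q, IsPencil y u) → ∃ Q' : Multiset K', Q'.card = Q.card ∧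
        (∀ v ∈ Q', v ∈ Submodule.span ℂ (affS y' i')) ∧
        dm ℂ (Q.map φ + W) ≤ B ^ Q.card * dm ℂ (Q' + W) := by
  classical
  obtain ⟨B, g, hg, hB⟩ := bnd_img hy' hi' φ hi
  refine ⟨B, fun Q => ?_⟩
  induction Q using Multiset.induction_on with
  | empty =>
    intro W _ _
    exact ⟨0, rfl, by simp, by simp⟩
  | cons u Q ih =>
    intro W hW hu
    rw [Multiset.map_cons, Multiset.cons_add, Multiset.card_cons] at hW
    obtain ⟨f₀, hf₀, f₁, hf₁, h0, hu1⟩ := pencil_ratio hi (hu u (Multiset.mem_cons_self _ _))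
    obtain ⟨v, hv, hle⟩ := repl hn' (S := affS y' i') (fin_affS i')
      (one_affS hi') (B := B) (f₀ := g * φ f₀) (f₁ := g * φ f₁)
      (mul_ne_zero hg (by rwa [Ne, map_eq_zero])) (hB f₀ hf₀) (hB f₁ hf₁) (W := Q.map φ + W) hW
    rw [mul_div_mul_left _ _ hg, ← map_div₀, ← hu1] at hle
    obtain ⟨Q', hQ'1, hQ'2, hle'⟩ := ih (v ::ₘ W) (by
      rw [Multiset.add_cons, Multiset.card_cons]
      exact hW) fun u hu' => hu u (Multiset.mem_cons_of_mem hu')
    refine ⟨v ::ₘ Q', by rw [Multiset.card_cons, Multiset.card_cons, hQ'1], fun z hz => ?_, ?_⟩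
    · rcases Multiset.mem_cons.1 hz with rfl | hz
      · exact hv
      · exact hQ'2 z hz
    · rw [Multiset.map_cons, Multiset.cons_add, Multiset.cons_add, Multiset.card_cons, pow_succ']
      rw [Multiset.add_cons, Multiset.add_cons] at hle'
      calc _ ≤ B * dm ℂ (v ::ₘ (Q.map φ + W)) := hle
        _ ≤ B * (B ^ Q.card * dm ℂ (v ::ₘ (Q' + W))) := Nat.mul_le_mul_left _ hle'
        _ = _ := by ring

/-- the degree of a generically finite map -/
theorem mapDegree_img (hn : Algebra.trdeg ℂ K = n) (hn' : Algebra.trdeg ℂ K' = n)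
    (hess' : Algebra.EssFiniteType ℂ K') (φ : K →ₐ[ℂ] K') {ι κ : Type} (u : ι → K) (w : κ → K) :
    1 ≤ mapDegree φ ∧ dg ℂ (Sum.elim (fun a => φ (u a)) fun a => φ (w a)) =
      dg ℂ (Sum.elim u w) * mapDegree φ := by
  let _ : Algebra K K' := φ.toRingHom.toAlgebra
  have hst : IsScalarTower ℂ K K' := IsScalarTower.of_algebraMap_eq fun c => (φ.commutes c).symm
  have hfd : FiniteDimensional K K' := finite_map hn hn'
  have hdeg : mapDegree φ = Module.finrank K K' := by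
    unfold mapDegree
    let e : K ≃ₐ[ℂ] φ.fieldRange := AlgEquiv.ofInjectiveField φ
    refine (Algebra.finrank_eq_of_equiv_equiv e.toRingEquiv (RingEquiv.refl K') ?_).symm
    ext x
    rfl
  rw [hdeg]
  refine ⟨Module.finrank_pos, ?_⟩
  rw [← dg_tower]
  congr 1
  funext a
  rcases a with a | a <;> rfl

/-- **The numerical dimension of images.** -/
theorem numDimLt_img (hy : NormalModel y) (hy' : NormalModel y') (hn : Algebra.trdeg ℂ K = n)
    (hn' : Algebra.trdeg ℂ K' = n) {Δ : Place ℂ K → ℚ} {Δ' : Place ℂ K' → ℚ} (φ : K →ₐ[ℂ] K')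
    (hφ : ∀ Q : Place ℂ K', IsPrimeDivisor y' Q → ∀ (P : Place ℂ K) (e : ℕ), LiesOver φ Q P e →
      ∃ α : ℚ, LogDisc y n Δ P α ∧ 1 - Δ' Q ≤ e * α) {j : ℕ} (hj : j ≤ n)
    (h : NumDimLt y' n Δ' j) : NumDimLt y n Δ j := by
  classical
  intro A hA ε hε
  obtain ⟨i, hi⟩ := hy.ne
  obtain ⟨i', hi'⟩ := hy'.ne
  have hess' := hy'.ess
  obtain ⟨x, E, hx, hE⟩ := exists_crd hn (k := ℂ) (K := K)
  have hfr : IsFrame E := fun F => ⟨fun j => F (x j),
    (Pool.Agent.W73.PG.PULL.expand x hx E hE F).symm⟩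
  obtain ⟨c, hcfin, hc⟩ := exists_ordc hy hn hx hE
  have hc : IsDisc y E c := hc
  obtain ⟨x', E', hx', hE'⟩ := exists_crd hn' (k := ℂ) (K := K')
  have hfr' : IsFrame E' := fun F => ⟨fun j => F (x' j),
    (Pool.Agent.W73.PG.PULL.expand x' hx' E' hE' F).symm⟩
  obtain ⟨c', hcfin', hc'⟩ := exists_ordc hy' hn' hx' hE'
  have hc' : IsDisc y' E' c' := hc'
  obtain ⟨J, hJ, A', hA', hpull⟩ := pull_key hy hy' hn hn' hA φ hφ hx hE hfr hfr' hc hc'
  obtain ⟨B, hB⟩ := replace_img (y := y) hy' hn' hi' φ hi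
  obtain ⟨t, ht, m₀, hm₀⟩ := h A' hA' (ε / ((B : ℝ) ^ (n - j) + 1)) (by positivity)
  refine ⟨t, ht, max m₀ 1, fun m b hm hb u hu ω E0 hω hω0 => ?_⟩
  have hm1 : 1 ≤ m := le_trans (le_max_right _ _) hm
  obtain ⟨w, hw⟩ : ∃ w : Fin j → K, w = fun a => ω a.succ E0 / ω 0 E0 := ⟨_, rfl⟩
  rw [← hw]
  have hE0 : ω 0 E ≠ 0 := (ratio_frame hfr (hω 0).1 (hω 0).1 hω0).1
  -- the sections
  obtain ⟨ω', hω'⟩ : ∃ ω' : Fin (j + 1) → (Fin n → Derivation ℂ K' K') → K',
      ∀ a, ω' a = frm x' m (J ^ m * φ (ω a E)) := ⟨_, fun _ => rfl⟩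
  have hself : ∀ a, ω' a E' = J ^ m * φ (ω a E) := fun a => by
    rw [hω']
    exact frm_self hE' m _
  have hsec : ∀ a, IsSection y' n m (m • Δ' + b • A') (ω' a) := by
    intro a
    have h1 : IsPluri m (ω' a) := by
      rw [hω']
      exact frm_pluri x' m _
    rw [isSection_iff hc' h1, hself]
    exact hpull m b hm1 _ ((isSection_iff hc (hω a).1).1 (hω a))
  have hrat : (fun a : Fin j => ω' a.succ E' / ω' 0 E') = fun a => φ (w a) := by
    funext a
    rw [hself, hself, hw, mul_div_mul_left _ _ (pow_ne_zero _ hJ), ← map_div₀]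
    congr 1
    exact ((ratio_frame hfr (hω 0).1 (hω a.succ).1 hω0).2).symm
  -- the degrees
  obtain ⟨hpos, e0⟩ := mapDegree_img hn hn' hess' φ u w
  have e1 : degreeOver (fun a => φ (u a)) (fun a => φ (w a)) =
      degreeOver u w * mapDegree φ := by
    rw [degreeOver_eq, degreeOver_eq]
    exact e0
  have e2 : degreeOver (fun a => φ (u a)) (fun a => φ (w a)) =
      dm ℂ ((toM u).map φ + toM (fun a => φ (w a))) := by
    refine deg_dm ?_ (toM_set _)
    ext x
    change x ∈ (toM u).map φ ↔ _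
    rw [Multiset.mem_map, Set.mem_range]
    constructor
    · rintro ⟨a, ha, rfl⟩
      obtain ⟨j, rfl⟩ := mem_toM.1 ha
      exact ⟨j, rfl⟩
    · rintro ⟨j, rfl⟩
      exact ⟨u j, mem_toM.2 ⟨j, rfl⟩, rfl⟩
  obtain ⟨Q', hQ'1, hQ'2, hle⟩ := hB (toM u) (toM (fun a => φ (w a)))
    (by rw [Multiset.card_add, Multiset.card_map, toM_card, toM_card]; omega) (fun z hz => by
      obtain ⟨a, rfl⟩ := mem_toM.1 hz
      exact hu a)
  rw [toM_card] at hQ'1 hle
  obtain ⟨v, hv⟩ := exists_fin Q' hQ'1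
  have hvp : ∀ a, IsPencil y' (v a) := by
    intro a
    refine pencil_span hi' (hQ'2 _ ?_)
    have : v a ∈ {x | x ∈ Q'} := by
      rw [hv]
      exact ⟨a, rfl⟩
    exact this
  have e3 : degreeOver v (fun a => φ (w a)) = dm ℂ (Q' + toM (fun a => φ (w a))) :=
    deg_dm hv (toM_set _)
  have h3 := hm₀ m b (le_trans (le_max_left _ _) hm) hb v hvp ω' E' hsec (by
    rw [hself]
    exact mul_ne_zero (pow_ne_zero _ hJ) (by rwa [Ne, map_eq_zero]))
  rw [hrat] at h3
  have h4 : degreeOver u w ≤ B ^ (n - j) * degreeOver v (fun a => φ (w a)) := by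
    rw [e3]
    refine le_trans ?_ hle
    rw [← e2, e1]
    exact Nat.le_mul_of_pos_right _ hpos
  have h5 : (degreeOver u w : ℝ) ≤ (B : ℝ) ^ (n - j) * degreeOver v (fun a => φ (w a)) := by
    exact_mod_cast h4
  refine h5.trans ?_
  have h6 : (B : ℝ) ^ (n - j) * degreeOver v (fun a => φ (w a)) ≤
      (B : ℝ) ^ (n - j) * (ε / ((B : ℝ) ^ (n - j) + 1) * m ^ j) :=
    mul_le_mul_of_nonneg_left h3 (by positivity)
  refine h6.trans ?_
  have h7 : (B : ℝ) ^ (n - j) * (ε / ((B : ℝ) ^ (n - j) + 1) * m ^ j) =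
      ((B : ℝ) ^ (n - j) / ((B : ℝ) ^ (n - j) + 1)) * (ε * m ^ j) := by ring
  rw [h7]
  have h8 : (B : ℝ) ^ (n - j) / ((B : ℝ) ^ (n - j) + 1) ≤ 1 := by
    rw [div_le_one (by positivity)]
    linarith
  have h9 : 0 ≤ ε * (m : ℝ) ^ j := by positivity
  nlinarith

end

end Pool.Agent.N110.IM
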