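import Pool.Agent.R887.Defs

/-!
Definition: pairs which are dominated by pairs.
-/

set_option autoImplicit false

open FF Pool.Agent.W602.GT Pool.Agent.Y172 Pool.Agent.R887

namespace Pool.Agent.N110.IM

section

variable {K K' : Type} [Field K] [Algebra ℂ K] [Field K'] [Algebra ℂ K'] {N N' : ℕ}

/-- Let `X' ⇢ X` be the dominant rational map given by the homomorphism `π` of the function fields,
`n` the dimension of `X'` and `X`. The divisor `π^* (K_X + Δ)` is at most `K_X' + Δ'` over the prime
divisors of `X'`: if `Q` is a prime divisor of `X'` and `P` its image, a divisor over `X`, and `e` the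
ramification index, then the product of `e` and of the log discrepancy of `(X, Δ)` along `P` is at
least `1 - Δ' Q`. -/
def ImagePullLe (π : K →ₐ[ℂ] K') (y : Fin (N + 1) → K) (n : ℕ) (Δ : Place ℂ K → ℚ)
    (y' : Fin (N' + 1) → K') (Δ' : Place ℂ K' → ℚ) : Prop :=
  ∀ Q : Place ℂ K', IsPrimeDivisor y' Q → ∀ (P : Place ℂ K) (e : ℕ), LiesOver π Q P e →
    ∃ α : ℚ, LogDisc y n Δ P α ∧ 1 - Δ' Q ≤ e * α

end

end Pool.Agent.N110.IM
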