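import Pool.Agent.N110.IM.LogDefs
import Pool.Agent.N110.IM.Defs
import Pool.Agent.N110.Log
import Pool.Agent.N110.RL.Log

/-!
The logarithmic ramification formula for dominant maps between open varieties.
-/

set_option autoImplicit false
set_option linter.overlappingInstances false
set_option linter.unusedSectionVars false

open FF MvPolynomial Pool.Agent.W602.GT Pool.Agent.W603.LV Pool.Agent.W619.PQ
open Pool.Agent.Y172 Pool.Agent.Y191 Pool.Agent.R887

namespace Pool.Agent.N110.IM

section

variable {K K' : Type} [Field K] [Algebra ℂ K] [Field K'] [Algebra ℂ K'] {N N' n : ℕ}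
  {y : Fin (N + 1) → K} {y' : Fin (N' + 1) → K'}

/-- Every dominant rational map `X' ⇢ X` which maps no prime divisor of the open part `V'` into the
boundary satisfies `π^* (K_X + D) ≤ K_X' + D'`, if `(X, D)` is log canonical, `D'` is reduced and the
open part of `X` is canonical. -/
theorem imagePullLe_log (hy : NormalModel y) (hy' : NormalModel y') (hn : Algebra.trdeg ℂ K = n)
    (hn' : Algebra.trdeg ℂ K' = n) {D : Place ℂ K → ℚ} {D' : Place ℂ K' → ℚ}
    (hred : ∀ P, IsPrimeDivisor y' P → D' P = 0 ∨ D' P = 1) (hlc : LogCanonical y n D)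
    (hcan : CanonicalOff y n D) {π : K →ₐ[ℂ] K'} (hπ : MapsOpen π y D y' D') :
    ImagePullLe π y n D y' D' := by
  intro Q hQ P e hPe
  have hess := hy.ess
  have hess' := hy'.ess
  let _ : Algebra K K' := π.toRingHom.toAlgebra
  have hst : IsScalarTower ℂ K K' :=
    IsScalarTower.of_algebraMap_eq fun c => (π.commutes c).symm
  have hfd : FiniteDimensional K K' := finite_map hn hn'
  have hov : Over Q P e := hPe
  have hdP : Divisorial n P := divisorial_down hov (hQ.divisorial hy' hn')
  rcases hred Q hQ with h0 | h1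
  · have hPV := hπ Q hQ h0 P e hPe
    obtain ⟨r, hr, η, hη, h2, h3⟩ := hcan P hdP hPV
    refine ⟨1, Or.inr ⟨r, hr, η, hη, fun P' hP' hT => ?_, ?_⟩, ?_⟩
    · have h4 : D P' = 0 := by
        by_contra h5
        exact hPV P' hP' h5 hT
      rw [h4, mul_zero, neg_zero]
      exact h2 P' hP' hT
    · rw [sub_self, mul_zero]
      exact h3
    · rw [h0, sub_zero, mul_one]
      exact_mod_cast hPe.1
  · obtain ⟨r, hr, η, hη, h2, h3⟩ := hlc P hdP
    refine ⟨0, Or.inr ⟨r, hr, η, hη, h2, ?_⟩, ?_⟩
    · rw [zero_sub, mul_neg, mul_one]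
      exact h3
    · rw [h1, sub_self, mul_zero]

end

end Pool.Agent.N110.IM
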