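import Pool.Agent.N110.LDefs

/-!
Definitions: dominant rational maps between the open parts of pairs.
-/

set_option autoImplicit false

open FF Pool.Agent.W602.GT Pool.Agent.Y172 Pool.Agent.R887

namespace Pool.Agent.N110.IM

section

variable {K K' : Type} [Field K] [Algebra ℂ K] [Field K'] [Algebra ℂ K'] {N N' : ℕ}

/-- The dominant rational map `X' ⇢ X` given by the homomorphism `π` of the function fields maps no
prime divisor of `V' = X' \ Supp D'` into the boundary `Supp D`: if `Q` is a prime divisor of `X'`
which is not a component of `D'`, and the divisor `P` over `X` is its image, then the centre of `P`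
meets `V = X \ Supp D`. This holds if the map restricts to a morphism from `V'` to `V`. -/
def MapsOpen (π : K →ₐ[ℂ] K') (y : Fin (N + 1) → K) (D : Place ℂ K → ℚ)
    (y' : Fin (N' + 1) → K') (D' : Place ℂ K' → ℚ) : Prop :=
  ∀ Q : Place ℂ K', IsPrimeDivisor y' Q → D' Q = 0 → ∀ (P : Place ℂ K) (e : ℕ),
    LiesOver π Q P e → MeetsOpen y D P

end

end Pool.Agent.N110.IM
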