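import Pool.Agent.N110.IM.Img
import Pool.Agent.N110.CanS

/-!
The numerical dimension of images with canonical singularities.
-/

set_option autoImplicit false
set_option linter.overlappingInstances false
set_option linter.unusedSectionVars false

open FF Pool.Agent.W602.GT Pool.Agent.Y172 Pool.Agent.R887

namespace Pool.Agent.N110.IM

section

variable {K K' : Type} [Field K] [Algebra ℂ K] [Field K'] [Algebra ℂ K'] {N N' n : ℕ}
  {y : Fin (N + 1) → K} {y' : Fin (N' + 1) → K'}

/-- the numerical dimension of images with canonical singularities -/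
theorem numDimLt_can (hy : NormalModel y) (hy' : NormalModel y') (hn : Algebra.trdeg ℂ K = n)
    (hn' : Algebra.trdeg ℂ K' = n) (hcan : Canonical y n) {Δ' : Place ℂ K' → ℚ}
    (hΔ' : ∀ P, IsPrimeDivisor y' P → 0 ≤ Δ' P) (φ : K →ₐ[ℂ] K') {j : ℕ} (hj : j ≤ n)
    (h : NumDimLt y' n Δ' j) : NumDimLt y n 0 j := by
  refine numDimLt_img hy hy' hn hn' φ (fun Q hQ P e hPe => ?_) hj h
  obtain ⟨α, h1, h2⟩ := hcan.pullBackLe hy hy' hn hn' φ Q hQ
    (fun h => h) P e hPe
  exact ⟨α, h1, by linarith [hΔ' Q hQ]⟩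

end

end Pool.Agent.N110.IM
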